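import Pool.Agent.H121.UE.Iface
import Pool.Agent.H168.Y987.Op

/-!
Project UE (helper121), part RESB: the resolvent identity (helper588).
-/

set_option autoImplicit false

open scoped BigOperators InnerProductSpace Topology ENNReal
open Filter MeasureTheory

namespace Pool.Agent.H588.UE

open Pool.Agent.H121.UE
open Pool.Agent.Y662.TR
open Pool.Agent.TH369.AN (Rz rz_eq rz_uniq)
open Pool.Agent.H987.Z (Rs Gr)
open Pool.Agent.H987.Y (Ker Op)
open Pool.Agent.H121.Z987 (HH HH_apply HH_rs rpow_tsum_le enorm_rpow)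

variable {ι : Type}

theorem coe_sum {α : Type} (B : Finset α) (f : α → LL ι) (x : ι) :
    (∑ u ∈ B, f u : LL ι) x = ∑ u ∈ B, f u x := by
  classical
  induction B using Finset.induction_on with
  | empty => rfl
  | insert a B ha ih => rw [Finset.sum_insert ha, Finset.sum_insert ha, add_coord, ih]

theorem sum_rpow_le {α : Type} (B : Finset α) (f : α → ℝ≥0∞) (s : ℝ) (hs : 0 < s) (hs1 : s ≤ 1) :
    (∑ u ∈ B, f u) ^ s ≤ ∑ u ∈ B, f u ^ s := by
  classical
  induction B using Finset.induction_on with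
  | empty => simp [hs]
  | insert x F hx ih =>
    rw [Finset.sum_insert hx, Finset.sum_insert hx]
    refine (ENNReal.rpow_add_le_add_rpow _ _ hs.le hs1).trans ?_
    gcongr

theorem resB (h : S_resA) : S_resB := by
  classical
  intro ι M t ht Ω B hBΩ lam ω z s x y hz hs hs1 hx hy hyB
  obtain ⟨k1, -, -⟩ := h ι M t ht Ω
  obtain ⟨k2, k2v, -⟩ := h ι M t ht (Ω \ (B : Set ι))
  obtain ⟨op1, -, rs1, -, -⟩ := Pool.Agent.H168.Y987.op ι _ M k1
  obtain ⟨op2, -, rs2, -, -⟩ := Pool.Agent.H168.Y987.op ι _ M k2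
  obtain ⟨T, hT⟩ : ∃ T, T = Op (rk Ω t) := ⟨_, rfl⟩
  obtain ⟨T', hT'⟩ : ∃ T', T' = Op (rk (Ω \ (B : Set ι)) t) := ⟨_, rfl⟩
  rw [← hT] at op1 rs1
  rw [← hT'] at op2 rs2
  obtain ⟨ψ, hψ⟩ : ∃ ψ, ψ = Rz (HH T' lam ω) z (dv y) := ⟨_, rfl⟩
  have hψG : ∀ v, GO t lam (Ω \ (B : Set ι)) ω z v y = ψ v := by
    intro v
    rw [hψ, hT']
    rfl
  have hψ0 : ∀ v, v ∉ Ω \ (B : Set ι) → ψ v = 0 := by
    intro v hv
    rw [← hψG]
    exact k2v lam ω z v y hz hv ⟨hy, fun h0 => hyB h0⟩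
  have e1 : HH T' lam ω ψ - z • ψ = dv y := by
    rw [hψ]
    exact rz_eq _ (HH_rs T' rs2 lam ω).sa z hz _
  -- the difference
  have hφ : ∀ u, T ψ u - T' ψ u =
      if u ∈ B then ∑' v, ((t u v : ℝ) : ℂ) * ψ v else 0 := by
    intro u
    rw [(op1 ψ u).2, (op2 ψ u).2, ← Summable.tsum_sub (op1 ψ u).1 (op2 ψ u).1]
    by_cases hu : u ∈ B
    · rw [if_pos hu]
      refine tsum_congr fun v => ?_
      by_cases hv : v ∈ Ω \ (B : Set ι)
      · have r1 : rk Ω t u v = t u v := if_pos ⟨hBΩ hu, hv.1⟩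
        have r2 : rk (Ω \ (B : Set ι)) t u v = 0 := if_neg fun h0 => h0.1.2 hu
        rw [r1, r2, Complex.ofReal_zero, zero_mul, sub_zero]
      · rw [hψ0 v hv, mul_zero, mul_zero, mul_zero, sub_zero]
    · rw [if_neg hu]
      rw [← tsum_zero (α := ℂ) (β := ι)]
      refine tsum_congr fun v => ?_
      by_cases hv : v ∈ Ω \ (B : Set ι)
      · by_cases hu2 : u ∈ Ω
        · have r1 : rk Ω t u v = t u v := if_pos ⟨hu2, hv.1⟩
          have r2 : rk (Ω \ (B : Set ι)) t u v = t u v := if_pos ⟨⟨hu2, fun h0 => hu h0⟩, hv⟩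
          rw [r1, r2, sub_self]
        · have r1 : rk Ω t u v = 0 := if_neg fun h0 => hu2 h0.1
          have r2 : rk (Ω \ (B : Set ι)) t u v = 0 := if_neg fun h0 => hu2 h0.1.1
          rw [r1, r2, sub_self]
      · rw [hψ0 v hv, mul_zero, mul_zero, sub_zero]
  obtain ⟨φ, hφd⟩ : ∃ φ : ι → ℂ, φ = fun u => ∑' v, ((t u v : ℝ) : ℂ) * ψ v := ⟨_, rfl⟩
  have e2 : HH T lam ω ψ - z • ψ = dv y + ∑ u ∈ B, φ u • dv u := by
    apply ll_ext
    intro u
    rw [sub_coord, smul_coord, HH_apply, add_coord, coe_sum]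
    have e3 : HH T' lam ω ψ u - z * ψ u = dv y u := by
      rw [← e1, sub_coord, smul_coord]
    rw [HH_apply] at e3
    have e4 : ∑ w ∈ B, (φ w • dv w : LL ι) u = if u ∈ B then φ u else 0 := by
      by_cases hu : u ∈ B
      · rw [if_pos hu, Finset.sum_eq_single u]
        · rw [smul_coord, dv_self, mul_one]
        · intro w _ hwu
          rw [smul_coord, dv_ne (Ne.symm hwu), mul_zero]
        · intro h0
          exact absurd hu h0
      · rw [if_neg hu]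
        refine Finset.sum_eq_zero fun w hw => ?_
        have hwu : u ≠ w := fun h0 => hu (h0 ▸ hw)
        rw [smul_coord, dv_ne hwu, mul_zero]
    have e5 := hφ u
    rw [e4, ← e3]
    have e6 : (if u ∈ B then φ u else 0) = T ψ u - T' ψ u := by
      rw [e5, hφd]
    rw [e6]
    ring
  have e3 := rz_uniq (HH T lam ω) (HH_rs T rs1 lam ω).sa z hz ψ _ e2
  have hx0 : ψ x = 0 := hψ0 x fun h0 => h0.2 hx
  have e4 : GO t lam Ω ω z x y = -∑ u ∈ B, φ u * GO t lam Ω ω z x u := by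
    have e5 : ψ x = (Rz (HH T lam ω) z (dv y + ∑ u ∈ B, φ u • dv u) : LL ι) x := by
      rw [← e3]
    rw [map_add, map_sum, add_coord, coe_sum, hx0] at e5
    have e6 : ∀ u, (Rz (HH T lam ω) z (dv u) : LL ι) x = GO t lam Ω ω z x u := by
      intro u
      rw [hT]
      rfl
    have e7 : ∑ u ∈ B, (Rz (HH T lam ω) z (φ u • dv u) : LL ι) x =
        ∑ u ∈ B, φ u * GO t lam Ω ω z x u := by
      refine Finset.sum_congr rfl fun u _ => ?_
      rw [map_smul, smul_coord, e6]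
    rw [e6, e7] at e5
    exact eq_neg_of_add_eq_zero_left e5.symm
  have e5 : ∀ u, ‖φ u‖ₑ ^ s ≤
      ∑' v, ENNReal.ofReal (|t u v| ^ s) * ‖GO t lam (Ω \ (B : Set ι)) ω z v y‖ₑ ^ s := by
    intro u
    rw [hφd]
    calc ‖∑' v, ((t u v : ℝ) : ℂ) * ψ v‖ₑ ^ s ≤ (∑' v, ‖((t u v : ℝ) : ℂ) * ψ v‖ₑ) ^ s := by
          gcongr
          exact enorm_tsum_le_tsum_enorm
      _ ≤ ∑' v, ‖((t u v : ℝ) : ℂ) * ψ v‖ₑ ^ s := rpow_tsum_le _ s hs hs1
      _ = _ := by
          refine tsum_congr fun v => ?_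
          rw [enorm_mul, ENNReal.mul_rpow_of_nonneg _ _ hs.le, hψG, enorm_rpow _ s hs.le,
            Complex.norm_real, Real.norm_eq_abs]
  rw [e4, enorm_neg]
  calc ‖∑ u ∈ B, φ u * GO t lam Ω ω z x u‖ₑ ^ s
      ≤ (∑ u ∈ B, ‖φ u * GO t lam Ω ω z x u‖ₑ) ^ s := by
        gcongr
        exact enorm_sum_le _ _
    _ ≤ ∑ u ∈ B, ‖φ u * GO t lam Ω ω z x u‖ₑ ^ s := sum_rpow_le _ _ s hs hs1
    _ ≤ _ := by
        refine Finset.sum_le_sum fun u _ => ?_
        rw [enorm_mul, ENNReal.mul_rpow_of_nonneg _ _ hs.le, mul_comm]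
        gcongr
        exact e5 u

end Pool.Agent.H588.UE
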